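import Mathlib

/-!
# Tate tensors of an ℓ-adic sheaf and of its fibre at a point: definitions
-/

namespace Pool.Agent.Q50.GS

variable {ℓ : ℕ} [Fact ℓ.Prime] {V : Type} [AddCommGroup V] [Module ℚ_[ℓ] V] {G : Type} [Group G]

/-- The form `φ` in `2 m` variables is a Tate tensor: a subgroup of finite index of the group `G`
acts on it through the `m`-th power of the character `χ`. -/
def IsTate (ρ : Representation ℚ_[ℓ] G V) (χ : G →* ℚ_[ℓ]) (m : ℕ)
    (φ : MultilinearMap ℚ_[ℓ] (fun _ : Fin m × Fin 2 => V) ℚ_[ℓ]) : Prop :=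
  ∃ Δ : Subgroup G, Δ.FiniteIndex ∧ ∀ s ∈ Δ, ∀ v, φ (fun k => ρ s (v k)) = χ s ^ m * φ v

/-- The endomorphism `X` kills all Tate tensors, as a derivation. For a semisimple representation,
these are the elements of the Lie algebra of the algebraic monodromy group which are skew for the
polarisation. -/
def InLie (ρ : Representation ℚ_[ℓ] G V) (χ : G →* ℚ_[ℓ]) (X : Module.End ℚ_[ℓ] V) : Prop :=
  ∀ (m : ℕ) (φ : MultilinearMap ℚ_[ℓ] (fun _ : Fin m × Fin 2 => V) ℚ_[ℓ]), IsTate ρ χ m φ →
    ∀ v : Fin m × Fin 2 → V, ∑ k, φ (Function.update v k (X (v k))) = 0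

/-- The Lie algebra of the endomorphisms which kill all Tate tensors is perfect: each of its elements
is a sum of commutators. -/
def PerfectLie (ρ : Representation ℚ_[ℓ] G V) (χ : G →* ℚ_[ℓ]) : Prop :=
  ∀ X, InLie ρ χ X →
    X ∈ Submodule.span ℚ_[ℓ] {Z | ∃ A B, InLie ρ χ A ∧ InLie ρ χ B ∧ Z = A * B - B * A}

/-- The representation is semisimple. -/
def IsSemisimple (ρ : Representation ℚ_[ℓ] G V) : Prop :=
  ∀ U : Submodule ℚ_[ℓ] V, (∀ s, ∀ u ∈ U, ρ s u ∈ U) →
    ∃ U' : Submodule ℚ_[ℓ] V, (∀ s, ∀ u ∈ U', ρ s u ∈ U') ∧ IsCompl U U'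

/-- A polarised `ℓ`-adic sheaf on a variety `Y`, with semisimple geometric monodromy: `V` is the
fibre, `G` is the arithmetic fundamental group of `Y`, the subgroup `N` is the geometric fundamental
group, `χ` is the (inverse) cyclotomic character to a suitable power and `ω` is the polarisation. -/
structure IsSheaf [TopologicalSpace G] (ρ : Representation ℚ_[ℓ] G V) (χ : G →* ℚ_[ℓ])
    (ω : V →ₗ[ℚ_[ℓ]] V →ₗ[ℚ_[ℓ]] ℚ_[ℓ]) (N : Subgroup G) : Prop where
  continuous : ∀ (v : V) (f : Module.Dual ℚ_[ℓ] V), Continuous fun s => f (ρ s v)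
  continuous_char : Continuous χ
  weil : ∀ s u v, ω (ρ s u) (ρ s v) = χ s * ω u v
  nondegenerate : ∀ u, (∀ v, ω u v = 0) → u = 0
  normal : N.Normal
  closed : IsClosed (N : Set G)
  geometric : ∀ s ∈ N, χ s = 1
  perfect : PerfectLie (ρ.comp N.subtype) (χ.comp N.subtype)

/-- A point `x` of `Y`: `D` is the absolute Galois group of its residue field and `i` is the induced
homomorphism to the arithmetic fundamental group of `Y`. Its image and the geometric fundamental
group generate a subgroup of finite index, and the representation `ρ ∘ i` on the fibre at `x` is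
semisimple. -/
structure IsPoint {D : Type} [Group D] [TopologicalSpace D] [TopologicalSpace G]
    (ρ : Representation ℚ_[ℓ] G V) (N : Subgroup G) (i : D →* G) : Prop where
  continuous : Continuous i
  finiteIndex : (i.range ⊔ N).FiniteIndex
  semisimple : IsSemisimple (ρ.comp i)

/-- The point `x` and the variety `Y` have the same algebraic monodromy group: every Tate tensor at
`x` is a Tate tensor on `Y`. -/
def SameGroup {D : Type} [Group D] (ρ : Representation ℚ_[ℓ] G V) (χ : G →* ℚ_[ℓ]) (i : D →* G) :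
    Prop :=
  ∀ (m : ℕ) (φ : MultilinearMap ℚ_[ℓ] (fun _ : Fin m × Fin 2 => V) ℚ_[ℓ]),
    IsTate (ρ.comp i) (χ.comp i) m φ → IsTate ρ χ m φ

/-- The point `x` is `ℓ`-Galois special with respect to a family of varieties through `x`: none of
them has the algebraic monodromy group of `x`. -/
def IsGaloisSpecial {ι : Type} {D G : ι → Type} [∀ y, Group (D y)] [∀ y, Group (G y)]
    (ρ : ∀ y, Representation ℚ_[ℓ] (G y) V) (χ : ∀ y, G y →* ℚ_[ℓ]) (i : ∀ y, D y →* G y) : Prop :=
  ∀ y, ¬ SameGroup (ρ y) (χ y) (i y)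

end Pool.Agent.Q50.GS
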