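import Pool.Agent.Q50.GS.Defs
import Pool.Agent.Q50.FP.Ab

/-!
# Tate tensors of degree four decide whether a point is Galois generic
-/

set_option linter.unusedSectionVars false
set_option maxHeartbeats 4000000
set_option synthInstance.maxHeartbeats 400000

namespace Pool.Agent.Q50.GS

open Module Pool.Agent.H204R3.SP Pool.Agent.H204R3.GP Pool.Agent.W516.KC Pool.Agent.W516.FT Pool.Agent.Q50.FP

section one

variable {ℓ : ℕ} [hℓ : Fact ℓ.Prime] {V : Type} [AddCommGroup V] [Module ℚ_[ℓ] V]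
  {G : Type} [Group G] (ρ : Representation ℚ_[ℓ] G V) (χ : G →* ℚ_[ℓ])

theorem isTate_iff (m : ℕ) (φ : MultilinearMap ℚ_[ℓ] (fun _ : Fin m × Fin 2 => V) ℚ_[ℓ]) :
    GS.IsTate ρ χ m φ ↔ Pool.Agent.H204R3.SP.IsTate ρ χ m φ := Iff.rfl

theorem inLie_iff (X : Module.End ℚ_[ℓ] V) : InLie ρ χ X ↔ X ∈ lieT ρ χ := Iff.rfl

theorem perfect_iff [FiniteDimensional ℚ_[ℓ] V] : PerfectLie ρ χ ↔ lieT ρ χ ≤ der (lieT ρ χ) := by
  have h1 : Submodule.span ℚ_[ℓ] {Z | ∃ A B, InLie ρ χ A ∧ InLie ρ χ B ∧ Z = A * B - B * A} =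
      der (lieT ρ χ) := by
    unfold der
    congr 1
    ext Z
    constructor
    · rintro ⟨A, B, hA, hB, h⟩
      exact ⟨A, hA, B, hB, h⟩
    · rintro ⟨A, hA, B, hB, h⟩
      exact ⟨A, B, hA, hB, h⟩
  constructor
  · intro h X hX
    rw [← h1]
    exact h X hX
  · intro h X hX
    rw [h1]
    exact h hX

/-- the product of the form `ω (P u) v` with `ω` -/
noncomputable def two (ω : V →ₗ[ℚ_[ℓ]] V →ₗ[ℚ_[ℓ]] ℚ_[ℓ]) (P : Module.End ℚ_[ℓ] V) :
    MultilinearMap ℚ_[ℓ] (fun _ : Fin 2 × Fin 2 => V) ℚ_[ℓ] :=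
  mmG (1 : Equiv.Perm (Fin 2 × Fin 2)) (fun l : Fin 2 => if l = 0 then ω.comp P else ω)

theorem two_apply (ω : V →ₗ[ℚ_[ℓ]] V →ₗ[ℚ_[ℓ]] ℚ_[ℓ]) (P : Module.End ℚ_[ℓ] V)
    (v : Fin 2 × Fin 2 → V) :
    two ω P v = ω (P (v (0, 0))) (v (0, 1)) * ω (v (1, 0)) (v (1, 1)) := by
  unfold two
  rw [mmG_apply, Fin.prod_univ_two, if_pos rfl, if_neg (by decide)]
  rfl

theorem kills_two (ω : V →ₗ[ℚ_[ℓ]] V →ₗ[ℚ_[ℓ]] ℚ_[ℓ]) (P Z : Module.End ℚ_[ℓ] V) :
    Kills Z (two ω P) → ∀ u v w x : V,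
      (ω (P (Z u)) v + ω (P u) (Z v)) * ω w x + ω (P u) v * (ω (Z w) x + ω w (Z x)) = 0 := by
  intro h u v w x
  have h1 := h (fun p => if p = (0, 0) then u else if p = (0, 1) then v else
    if p = (1, 0) then w else x)
  rw [Pool.Agent.W516.KC2.sum22] at h1
  simp only [two_apply] at h1
  have h2 : ω (P (Z u)) v * ω w x + ω (P u) (Z v) * ω w x +
      (ω (P u) v * ω (Z w) x + ω (P u) v * ω w (Z x)) = 0 := by
    simpa [Function.update] using h1
  linear_combination h2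

theorem two_tate (ω : V →ₗ[ℚ_[ℓ]] V →ₗ[ℚ_[ℓ]] ℚ_[ℓ])
    (hω : ∀ s u v, ω (ρ s u) (ρ s v) = χ s * ω u v) {P : Module.End ℚ_[ℓ] V}
    (hP : AlmostEquivariant ρ P) : GS.IsTate ρ χ 2 (two ω P) := by
  obtain ⟨Δ, hΔ, h⟩ := hP
  refine ⟨Δ, hΔ, fun s hs v => ?_⟩
  rw [two_apply, two_apply, h s hs, hω, hω]
  ring

end one

section group

variable {G D : Type} [Group G] [Group D]

/-- a subgroup which contains subgroups of finite index of the image of `D` and of `N` is of finite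
index -/
theorem finiteIndex_of {i : D →* G} {N : Subgroup G} [N.Normal] (hN : (i.range ⊔ N).FiniteIndex)
    {Δ : Subgroup G} {Δ₁ : Subgroup D} (h1 : Δ₁.FiniteIndex) (h1' : ∀ d ∈ Δ₁, i d ∈ Δ)
    {Δ₂ : Subgroup N} (h2 : Δ₂.FiniteIndex) (h2' : ∀ n ∈ Δ₂, (n : G) ∈ Δ) : Δ.FiniteIndex := by
  have : Finite (G ⧸ (i.range ⊔ N)) := Subgroup.finite_quotient_of_finiteIndex
  have : Finite (D ⧸ Δ₁) := Subgroup.finite_quotient_of_finiteIndex
  have : Finite (N ⧸ Δ₂) := Subgroup.finite_quotient_of_finiteIndex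
  let f : (G ⧸ (i.range ⊔ N)) × (D ⧸ Δ₁) × (N ⧸ Δ₂) → G ⧸ Δ := fun p =>
    QuotientGroup.mk (p.1.out * (i p.2.1.out * (p.2.2.out : G)))
  have hf : Function.Surjective f := by
    intro q
    obtain ⟨g, rfl⟩ := QuotientGroup.mk_surjective q
    have e1 : (QuotientGroup.mk g : G ⧸ (i.range ⊔ N)).out⁻¹ * g ∈ i.range ⊔ N := by
      rw [← QuotientGroup.eq]
      exact QuotientGroup.out_eq' _
    obtain ⟨y, ⟨d, rfl⟩, z, hz, hyz⟩ := Subgroup.mem_sup_of_normal_right.1 e1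
    have e2 : (QuotientGroup.mk d : D ⧸ Δ₁).out⁻¹ * d ∈ Δ₁ := by
      rw [← QuotientGroup.eq]
      exact QuotientGroup.out_eq' _
    let δ : D := (QuotientGroup.mk d : D ⧸ Δ₁).out⁻¹ * d
    have hz' : i δ * z * (i δ)⁻¹ ∈ N := Subgroup.Normal.conj_mem inferInstance z hz _
    let n : N := ⟨i δ * z * (i δ)⁻¹, hz'⟩
    have e3 : (QuotientGroup.mk n : N ⧸ Δ₂).out⁻¹ * n ∈ Δ₂ := by
      rw [← QuotientGroup.eq]
      exact QuotientGroup.out_eq' _
    refine ⟨⟨QuotientGroup.mk g, QuotientGroup.mk d, QuotientGroup.mk n⟩, ?_⟩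
    change QuotientGroup.mk _ = QuotientGroup.mk _
    rw [QuotientGroup.eq]
    have e4 : g = (QuotientGroup.mk g : G ⧸ (i.range ⊔ N)).out *
        (i (QuotientGroup.mk d : D ⧸ Δ₁).out * ((QuotientGroup.mk n : N ⧸ Δ₂).out : G)) *
        ((((QuotientGroup.mk n : N ⧸ Δ₂).out⁻¹ * n : N) : G) * i δ) := by
      have e5 : (((QuotientGroup.mk n : N ⧸ Δ₂).out⁻¹ * n : N) : G) =
          ((QuotientGroup.mk n : N ⧸ Δ₂).out : G)⁻¹ * (i δ * z * (i δ)⁻¹) := rfl
      have e6 : i d = i (QuotientGroup.mk d : D ⧸ Δ₁).out * i δ := by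
        rw [← map_mul]
        congr 1
        change d = _ * (_⁻¹ * d)
        rw [mul_inv_cancel_left]
      rw [e5]
      have e7 : g = (QuotientGroup.mk g : G ⧸ (i.range ⊔ N)).out * (i d * z) := by
        rw [hyz, mul_inv_cancel_left]
      conv_lhs => rw [e7, e6]
      group
    have e9 : ((QuotientGroup.mk g : G ⧸ (i.range ⊔ N)).out *
        (i (QuotientGroup.mk d : D ⧸ Δ₁).out * ((QuotientGroup.mk n : N ⧸ Δ₂).out : G)))⁻¹ * g =
        (((QuotientGroup.mk n : N ⧸ Δ₂).out⁻¹ * n : N) : G) * i δ := by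
      rw [inv_mul_eq_iff_eq_mul]
      exact e4
    rw [e9]
    exact Δ.mul_mem (h2' _ e3) (h1' _ e2)
  have : Finite (G ⧸ Δ) := Finite.of_surjective f hf
  exact Subgroup.finiteIndex_of_finite_quotient

end group

section main

variable {ℓ : ℕ} [hℓ : Fact ℓ.Prime] {V : Type} [AddCommGroup V] [Module ℚ_[ℓ] V]
  [FiniteDimensional ℚ_[ℓ] V] {G : Type} [Group G] (ρ : Representation ℚ_[ℓ] G V)
  (χ : G →* ℚ_[ℓ]) (ω : V →ₗ[ℚ_[ℓ]] V →ₗ[ℚ_[ℓ]] ℚ_[ℓ])

/-- the Lie algebra acts semisimply -/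
theorem semi_of [TopologicalSpace G] [IsTopologicalGroup G] [CompactSpace G]
    (hω : ∀ s u v, ω (ρ s u) (ρ s v) = χ s * ω u v)
    (hnd : ∀ u, (∀ v, ω u v = 0) → u = 0) (hss : IsSemisimple ρ) : Semi (lieT ρ χ) := by
  refine clifford (ρ : G →* Module.End ℚ_[ℓ] V) (lieT ρ χ) (fun s X hX => lieT_conj ρ χ s hX)
    (fun U hU => hss U hU) fun P hP X hX => ?_
  refine comm_of_almost ρ χ ω hω hnd ⟨⊤, inferInstance, fun s _ v => ?_⟩ hX
  have h1 := congrArg (fun f : Module.End ℚ_[ℓ] V => f v) (hP s)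
  exact h1

/-- the Lie algebra of a subgroup -/
theorem lieT_comp_le {D : Type} [Group D] (i : D →* G) :
    lieT (ρ.comp i) (χ.comp i) ≤ lieT ρ χ := by
  intro X hX m φ hφ
  obtain ⟨Δ, hΔ, h⟩ := hφ
  have h1 : (Δ.comap i).FiniteIndex := by
    constructor
    rw [Subgroup.index_comap]
    intro h0
    exact hΔ.index_ne_zero (Subgroup.index_eq_zero_of_relIndex_eq_zero h0)
  exact hX m φ ⟨Δ.comap i, h1, fun s hs v => h (i s) hs v⟩

variable {D : Type} [Group D] [TopologicalSpace D] [IsTopologicalGroup D] [CompactSpace D]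
  (i : D →* G)

/-- An element which kills all forms of the group decomposes, if the forms in four variables of the
subgroup are forms of the group. -/
theorem decomp_of (hωρ : ∀ s u v, ω (ρ s u) (ρ s v) = χ s * ω u v)
    (hnd : ∀ u, (∀ v, ω u v = 0) → u = 0)
    (hρ : ∀ (v : V) (f : Module.Dual ℚ_[ℓ] V), Continuous fun s => f (ρ (i s) v))
    (hχ : Continuous fun s => χ (i s)) (hsemi : Semi (lieT (ρ.comp i) (χ.comp i)))
    (hfour : ∀ φ, GS.IsTate (ρ.comp i) (χ.comp i) 2 φ → GS.IsTate ρ χ 2 φ)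
    {Z : Module.End ℚ_[ℓ] V} (hZ : Z ∈ lieT ρ χ) :
    ∃ s ∈ der (lieT (ρ.comp i) (χ.comp i)), InCentre (lieT (ρ.comp i) (χ.comp i)) (Z - s) := by
  have hsk : IsSkew ω Z := fun u v => lieT_sp ρ χ ω hωρ hZ u v
  refine decomp (lieT (ρ.comp i) (χ.comp i)) hsemi (lieT_br _ _) ω hnd hsk ?_ ?_
  · exact hZ 2 _ (hfour _ (cas_tate (ρ.comp i) (χ.comp i) ω (fun s u v => hωρ (i s) u v) hsemi))
  · intro P hP
    have h1 : AlmostEquivariant (ρ.comp i) P :=
      almost_of_comm (ρ.comp i) (χ.comp i) hρ hχ ω (fun s u v => hωρ (i s) u v) hnd hP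
    have h2 := hfour _ (two_tate (ρ.comp i) (χ.comp i) ω (fun s u v => hωρ (i s) u v) h1)
    have h3 := kills_two ω P Z (hZ 2 _ h2)
    refine LinearMap.ext fun u => ?_
    rw [← sub_eq_zero]
    apply hnd
    intro v
    by_cases h : ∃ w x, ω w x ≠ 0
    · obtain ⟨w, x, hwx⟩ := h
      have h4 := h3 u v w x
      have h5 := hsk w x
      rw [h5, mul_zero, add_zero, mul_eq_zero, or_iff_left hwx] at h4
      have h6 := hsk (P u) v
      rw [map_sub, LinearMap.sub_apply]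
      change ω (Z (P u)) v - ω (P (Z u)) v = 0
      linear_combination h6 - h4
    · push Not at h
      exact h _ _

/-- the derived algebra of the Lie algebra of the group is in the one of the subgroup -/
theorem der_le_of (hωρ : ∀ s u v, ω (ρ s u) (ρ s v) = χ s * ω u v)
    (hnd : ∀ u, (∀ v, ω u v = 0) → u = 0)
    (hρ : ∀ (v : V) (f : Module.Dual ℚ_[ℓ] V), Continuous fun s => f (ρ (i s) v))
    (hχ : Continuous fun s => χ (i s)) (hsemi : Semi (lieT (ρ.comp i) (χ.comp i)))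
    (hfour : ∀ φ, GS.IsTate (ρ.comp i) (χ.comp i) 2 φ → GS.IsTate ρ χ 2 φ) :
    der (lieT ρ χ) ≤ der (lieT (ρ.comp i) (χ.comp i)) := by
  have hbr := lieT_br (ρ.comp i) (χ.comp i)
  refine Submodule.span_le.2 ?_
  rintro _ ⟨Z, hZ, Z', hZ', rfl⟩
  obtain ⟨s, hs, hz⟩ := decomp_of ρ χ ω i hωρ hnd hρ hχ hsemi hfour hZ
  obtain ⟨s', hs', hz'⟩ := decomp_of ρ χ ω i hωρ hnd hρ hχ hsemi hfour hZ'
  have h1 := hz.2 _ hz'.1
  have h2 := hz.1 s' (der_sub _ hbr hs')
  have h3 := hz'.1 s (der_sub _ hbr hs)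
  have h4 : Z * Z' - Z' * Z = s * s' - s' * s := by
    have e1 : Z * Z' - Z' * Z - (s * s' - s' * s) =
        ((Z - s) * (Z' - s') - (Z' - s') * (Z - s)) + (s * (Z' - s') - (Z' - s') * s) -
          (s' * (Z - s) - (Z - s) * s') := by noncomm_ring
    rw [h1, h2, h3, sub_self, sub_self, sub_self, sub_zero, add_zero, sub_eq_zero] at e1
    exact e1
  rw [h4]
  exact der_br _ hbr _ hs _ hs'

/-- the elements which transform a form by the power of the character -/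
def transf {m : ℕ} (φ : MultilinearMap ℚ_[ℓ] (fun _ : Fin m × Fin 2 => V) ℚ_[ℓ]) : Subgroup G where
  carrier := {g | ∀ v, φ (fun k => ρ g (v k)) = χ g ^ m * φ v}
  one_mem' := by
    intro v
    rw [map_one, map_one, one_pow, one_mul]
    rfl
  mul_mem' := by
    intro a b ha hb v
    have h1 := ha (fun k => ρ b (v k))
    have h2 := hb v
    rw [h2, ← mul_assoc, ← mul_pow, ← map_mul] at h1
    rw [← h1]
    congr 1
    funext k
    rw [map_mul]
    rfl
  inv_mem' := by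
    intro a ha v
    have h1 := ha (fun k => ρ a⁻¹ (v k))
    have h2 : (fun k => ρ a (ρ a⁻¹ (v k))) = v := by
      funext k
      have h3 : (ρ a * ρ a⁻¹) (v k) = v k := by
        rw [← map_mul, mul_inv_cancel, map_one]
        rfl
      exact h3
    rw [h2] at h1
    rw [h1, ← mul_assoc, ← mul_pow, ← map_mul, inv_mul_cancel, map_one, one_pow, one_mul]

theorem tate_all [TopologicalSpace G] [IsTopologicalGroup G] [CompactSpace G] {N : Subgroup G}
    (hS : IsSheaf ρ χ ω N) (hi : Continuous i) (hD : (i.range ⊔ N).FiniteIndex)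
    (hss : IsSemisimple (ρ.comp i))
    (hfour : ∀ φ, GS.IsTate (ρ.comp i) (χ.comp i) 2 φ → GS.IsTate ρ χ 2 φ) (m : ℕ)
    (φ : MultilinearMap ℚ_[ℓ] (fun _ : Fin m × Fin 2 => V) ℚ_[ℓ])
    (hφ : GS.IsTate (ρ.comp i) (χ.comp i) m φ) : GS.IsTate ρ χ m φ := by
  have hωρ := hS.weil
  have hnd := hS.nondegenerate
  have hρ : ∀ (v : V) (f : Module.Dual ℚ_[ℓ] V), Continuous fun s => f (ρ (i s) v) :=
    fun v f => (hS.continuous v f).comp hi
  have hχ : Continuous fun s => χ (i s) := hS.continuous_char.comp hi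
  have hsemi : Semi (lieT (ρ.comp i) (χ.comp i)) :=
    semi_of (ρ.comp i) (χ.comp i) ω (fun s u v => hωρ (i s) u v) hnd hss
  have h1 := der_le_of ρ χ ω i hωρ hnd hρ hχ hsemi hfour
  have h2 : lieT (ρ.comp N.subtype) (χ.comp N.subtype) ≤ lieT (ρ.comp i) (χ.comp i) := by
    refine ((perfect_iff _ _).1 hS.perfect).trans ?_
    refine le_trans ?_ (der_sub _ (lieT_br (ρ.comp i) (χ.comp i)))
    refine le_trans ?_ h1
    refine Submodule.span_mono ?_
    rintro _ ⟨A, hA, B, hB, rfl⟩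
    exact ⟨A, lieT_comp_le ρ χ N.subtype hA, B, lieT_comp_le ρ χ N.subtype hB, rfl⟩
  have : CompactSpace N := isCompact_iff_compactSpace.1 hS.closed.isCompact
  have h3 : GS.IsTate (ρ.comp N.subtype) (χ.comp N.subtype) m φ := by
    refine tate_of_kills (ρ.comp N.subtype) (χ.comp N.subtype) ?_ ?_ φ fun X hX => ?_
    · intro v f
      exact (hS.continuous v f).comp continuous_subtype_val
    · exact hS.continuous_char.comp continuous_subtype_val
    · exact h2 hX m φ hφ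
  obtain ⟨Δ₁, hΔ₁, h4⟩ := hφ
  obtain ⟨Δ₂, hΔ₂, h5⟩ := h3
  have := hS.normal
  exact ⟨transf ρ χ φ, finiteIndex_of hD hΔ₁ (fun d hd v => h4 d hd v) hΔ₂ (fun n hn v => h5 n hn v),
    fun s hs v => hs v⟩

end main

end Pool.Agent.Q50.GS
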